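import Pool.Agent.Run7.h230.QF.Stm

set_option autoImplicit false

namespace Pool.Agent.Run7.h354.QF

open Pool.Agent.Run7.h230.QF
open Pointwise

theorem fx_npow {V G : Type} [Group G] [MulAction G V] {Γ : SimpleGraph V} {N k : ℕ}
    {f : (Fin k → ℤ) → V} {i : Fin k} (hF : S_FXG) {g : G} (hg : Fx Γ N f i g) :
    ∀ n : ℕ, Fx Γ N f i (g ^ n) ∧ tau Γ f i (g ^ n) = n * tau Γ f i g
  | 0 => by
    obtain ⟨_, _, h3, h4⟩ := hF V G Γ N k f i g g hg hg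
    obtain ⟨h5, h6, _, _⟩ := hF V G Γ N k f i g g⁻¹ hg h3
    rw [mul_inv_cancel] at h5 h6
    rw [pow_zero]
    exact ⟨h5, by rw [h6, h4]; simp⟩
  | n + 1 => by
    obtain ⟨h1, h2⟩ := fx_npow hF hg n
    obtain ⟨h5, h6, _, _⟩ := hF V G Γ N k f i (g ^ n) g h1 hg
    rw [pow_succ]
    exact ⟨h5, by rw [h6, h2]; push_cast; ring⟩

theorem fx_zpow {V G : Type} [Group G] [MulAction G V] {Γ : SimpleGraph V} {N k : ℕ}
    {f : (Fin k → ℤ) → V} {i : Fin k} (hF : S_FXG) {g : G} (hg : Fx Γ N f i g) (n : ℤ) :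
    Fx Γ N f i (g ^ n) ∧ tau Γ f i (g ^ n) = n * tau Γ f i g := by
  obtain ⟨m, rfl | rfl⟩ := n.eq_nat_or_neg
  · rw [zpow_natCast]
    exact fx_npow hF hg m
  · obtain ⟨h1, h2⟩ := fx_npow hF hg m
    obtain ⟨_, _, h3, h4⟩ := hF V G Γ N k f i (g ^ m) (g ^ m) h1 h1
    rw [zpow_neg, zpow_natCast]
    exact ⟨h3, by rw [h4, h2]; ring⟩

theorem t_CP : S_FXG → S_DISP → S_KER → S_CP := by
  intro hF hD hKer V G _ _ Γ hA k N hGr f hf i g h hg hh tg th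
  obtain ⟨M, hM⟩ := hKer V G Γ hA (3 * N)
  obtain ⟨fu, tu⟩ := fx_zpow hF hg (tau Γ f i h)
  obtain ⟨fv, tv⟩ := fx_zpow hF hh (tau Γ f i g)
  set u := g ^ (tau Γ f i h) with hu
  set v := h ^ (tau Γ f i g) with hv
  have hc : ∀ n : ℕ, Fx Γ N f i (u ^ n * (v ^ n)⁻¹) ∧ tau Γ f i (u ^ n * (v ^ n)⁻¹) = 0 := by
    intro n
    obtain ⟨a1, a2⟩ := fx_npow hF fu n
    obtain ⟨b1, b2⟩ := fx_npow hF fv n
    obtain ⟨_, _, b3, b4⟩ := hF V G Γ N k f i (v ^ n) (v ^ n) b1 b1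
    obtain ⟨c1, c2, _, _⟩ := hF V G Γ N k f i (u ^ n) (v ^ n)⁻¹ a1 b3
    refine ⟨c1, ?_⟩
    rw [c2, a2, b4, b2, tu, tv]
    ring
  choose t₀ ht₀ using fun n => hD V G Γ hA k N hGr f hf i _ (hc n).1 (hc n).2
  obtain ⟨t, ht⟩ : ∃ t : ℤ, ∀ n ∈ Finset.range (M + 1), t₀ n ≤ t := by
    obtain ⟨t, ht⟩ := ((Finset.range (M + 1)).image t₀).exists_le
    exact ⟨t, fun n hn => ht _ (Finset.mem_image_of_mem _ hn)⟩
  obtain ⟨hfin, hcard⟩ := hM (f (Pi.single i t))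
  have hmaps : ∀ n ∈ Finset.range (M + 1), u ^ n * (v ^ n)⁻¹ ∈ hfin.toFinset := by
    intro n hn
    rw [Set.Finite.mem_toFinset]
    exact ht₀ n t (ht n hn)
  have hlt : hfin.toFinset.card < (Finset.range (M + 1)).card := by
    rw [Finset.card_range, ← Set.ncard_eq_toFinset_card _ hfin]
    omega
  obtain ⟨n, hn, m, hm, hne, he⟩ := Finset.exists_ne_map_eq_of_card_lt_of_maps_to hlt hmaps
  -- `u ^ n v⁻ⁿ = u ^ m v⁻ᵐ`
  have key : u ^ ((m : ℤ) - n) = v ^ ((m : ℤ) - n) := by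
    have e1 : u ^ n = u ^ m * (v ^ m)⁻¹ * v ^ n := by
      rw [← he]; group
    rw [zpow_sub, zpow_sub, zpow_natCast, zpow_natCast, zpow_natCast, zpow_natCast]
    have e2 : (u ^ n)⁻¹ = (v ^ n)⁻¹ * v ^ m * (u ^ m)⁻¹ := by
      rw [e1]; group
    rw [e2]
    -- powers of the same elements commute
    have cu : u ^ m * (u ^ n)⁻¹ = (u ^ n)⁻¹ * u ^ m := by
      have : Commute (u ^ m) (u ^ n) := (Commute.refl u).pow_pow m n
      exact this.inv_right.eq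
    have cv : v ^ m * (v ^ n)⁻¹ = (v ^ n)⁻¹ * v ^ m := by
      have : Commute (v ^ m) (v ^ n) := (Commute.refl v).pow_pow m n
      exact this.inv_right.eq
    rw [← e2, cu, e2, cv]
    group
  refine ⟨tau Γ f i h * ((m : ℤ) - n), tau Γ f i g * ((m : ℤ) - n), ?_, ?_, ?_⟩
  · exact mul_ne_zero th (sub_ne_zero.2 (by exact_mod_cast hne.symm))
  · exact mul_ne_zero tg (sub_ne_zero.2 (by exact_mod_cast hne.symm))
  · rw [zpow_mul, zpow_mul, ← hu, ← hv]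
    exact key

end Pool.Agent.Run7.h354.QF
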