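import Pool.Agent.Run7.h230.QF.Stm

set_option autoImplicit false

namespace Pool.Agent.Run7.h354.QF

open Pool.Agent.Run7.h230.QF Pool.Agent.H97R3.VR
open Pointwise

theorem fin_at {V G : Type} [Group G] [MulAction G V] {Γ : SimpleGraph V} (hA : Act G Γ)
    (C : ℕ) (v : V) : {g : G | Γ.dist (g • v) v ≤ C}.Finite := by
  have hb := ball_finite hA.med.conn hA.loc v C
  have h1 : {g : G | Γ.dist (g • v) v ≤ C} ⊆ ⋃ u ∈ {u | Γ.dist v u ≤ C}, {g : G | g • v = u} := by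
    intro g hg
    simp only [Set.mem_iUnion, Set.mem_setOf_eq]
    exact ⟨g • v, by rw [SimpleGraph.dist_comm]; exact hg, rfl⟩
  refine (hb.biUnion fun u _ => ?_).subset h1
  by_cases hu : ∃ g₀ : G, g₀ • v = u
  · obtain ⟨g₀, hg₀⟩ := hu
    refine ((hA.stab v).image (fun s => g₀ * s)).subset ?_
    intro g hg
    refine ⟨g₀⁻¹ * g, ?_, by group⟩
    have hg' : g • v = u := hg
    show (g₀⁻¹ * g) • v = v
    rw [mul_smul, hg', ← hg₀, inv_smul_smul]
  · push Not at hu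
    have : {g : G | g • v = u} = ∅ := by
      ext g
      simp [hu g]
    rw [this]
    exact Set.finite_empty

theorem t_KER : S_KER := by
  intro V G _ _ Γ hA C
  obtain ⟨K, hK, hKo⟩ := hA.orb
  obtain ⟨M, hM⟩ : ∃ M : ℕ, ∀ κ ∈ K, {g : G | Γ.dist (g • κ) κ ≤ C}.ncard ≤ M := by
    refine ⟨∑ κ ∈ hK.toFinset, {g : G | Γ.dist (g • κ) κ ≤ C}.ncard, fun κ hκ => ?_⟩
    exact Finset.single_le_sum (f := fun κ => {g : G | Γ.dist (g • κ) κ ≤ C}.ncard)
      (fun _ _ => Nat.zero_le _) (hK.mem_toFinset.2 hκ)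
  refine ⟨M, fun v => ⟨fin_at hA C v, ?_⟩⟩
  obtain ⟨h, hh⟩ := hKo v
  refine le_trans ?_ (hM _ hh)
  refine Set.ncard_le_ncard_of_injOn (fun g => h * g * h⁻¹) ?_ ?_ (fin_at hA C _)
  · intro g hg
    show Γ.dist ((h * g * h⁻¹) • h • v) (h • v) ≤ C
    have : (h * g * h⁻¹) • h • v = h • g • v := by
      rw [mul_smul, mul_smul, inv_smul_smul]
    rw [this, dist_smul hA.med.conn hA.adj]
    exact hg
  · intro g _ g' _ hgg
    have : h * g * h⁻¹ = h * g' * h⁻¹ := hgg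
    exact mul_left_cancel (mul_right_cancel this)

end Pool.Agent.Run7.h354.QF
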